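import Pool.Agent.Lib.SAD.RealAn

/-!
# MP_d36302_an : one real-analytic test function decides equidistribution on an `SL(2, ℝ)`-orbit

Let `X` be a translation surface (given by a triangulation) and `f` a real-analytic function on the
unit circle, written as `f (u) = Re ∑ a n * u ^ n`, `|u| = 1`, with `∑ |a n| r ^ n < ∞` for some
`r > 1`, such that `a (2 k)` is not zero for some `k ≥ 1`; if `k ≥ 2`, assume that
`c R² ≤ N(X, R) ≤ C R²` for large `R` (a theorem of Masur for every `X`). The following are
equivalent: the holonomy angles of all surfaces `A X`, `A ∈ SL(2, ℝ)`, equidistribute (so Q1 holds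
for all of them); for all `A` the mean of `f` over the directions of the saddle connections of `A X`
of length at most `R` tends to the mean of `f` over the circle; this mean tends to one common limit
for all `A` in some nonempty open subset of `SL(2, ℝ)`.
-/

open Filter Topology MeasureTheory Set SAD
open scoped MatrixGroups

namespace Pool.Agent.Results.MP_d36302_an.AnyHarmonic

theorem result (X : SAD.TransSurf) (f : ℂ → ℝ) (a : ℕ → ℂ) (r : ℝ) (hr : 1 < r)
    (ha : Summable fun n => ‖a n‖ * r ^ n)
    (hf : ∀ u : ℂ, ‖u‖ = 1 → f u = (∑' n, a n * u ^ n).re)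
    (k : ℕ) (hk : 1 ≤ k) (hc : a (2 * k) ≠ 0)
    (hX : k = 1 ∨
      ∃ c C : ℝ, 0 < c ∧ ∀ᶠ R in atTop, c * R ^ 2 ≤ N X.hol R ∧ N X.hol R ≤ C * R ^ 2) :
    List.TFAE [
      ∀ A : SL(2, ℝ), Equi (X.push A).hol,
      ∀ A : SL(2, ℝ), Tendsto (fun R => dirSum (X.push A).hol f R / N (X.push A).hol R) atTop
        (𝓝 (Real.circleAverage f 0 1)),
      ∃ (l : ℝ) (U : Set SL(2, ℝ)), IsOpen U ∧ U.Nonempty ∧ ∀ A ∈ U,
        Tendsto (fun R => dirSum (X.push A).hol f R / N (X.push A).hol R) atTop (𝓝 l)] :=
  SAD.main_an X hr ha hf hk hc hX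

end Pool.Agent.Results.MP_d36302_an.AnyHarmonic
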