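import Pool.Agent.Lib.SAD.OneFunA
import Pool.Agent.Lib.SAD.OneFunC

/-!
# MP_d36302_an : one test function decides equidistribution on an `SL(2, ℝ)`-orbit

Let `X` be a translation surface (given by a triangulation). Call a function `f` on the unit circle
stable (`SAD.Stable`) if there are a number `l` and a nonempty open subset `V` of `SL(2, ℝ)`, invariant
under left multiplication by rotations, such that for every `A ∈ V` the mean of `f` over the directions
of the saddle connections of `A X` of length at most `R` tends to `l` as `R → ∞`.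

* The holonomy angles of all surfaces `A X`, `A ∈ SL(2, ℝ)`, equidistribute (so Q1 holds for all of
  them) if and only if the indicator function of one fixed arc of length less than `π` is stable.
* They equidistribute if some bounded Borel function with a nonzero Fourier coefficient of order `2k`,
  `k ≥ 1`, is stable, where for `k ≥ 2` we assume that `c R² ≤ N(X, R) ≤ C R²` for large `R` (a theorem
  of Masur for every `X`).
* Under these bounds they equidistribute if and only if `f` is stable, for each continuous `f` for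
  which `f(u) + f(-u)` is not constant on the unit circle.
-/

open Filter Topology MeasureTheory Set SAD
open scoped MatrixGroups

namespace Pool.Agent.Results.MP_d36302_an.OneFunction

theorem result (X : SAD.TransSurf) :
    (∀ a b : ℝ, a < b → b - a < Real.pi →
      ((∀ A : SL(2, ℝ), Equi (X.push A).hol) ↔
        Stable X (Set.indicator ((fun θ : ℝ => circleMap 0 1 θ) '' Icc a b)
          (fun _ => (1 : ℝ))))) ∧
    (∀ (f : ℂ → ℝ) (k : ℕ), Measurable f → (∃ M : ℝ, ∀ z, |f z| ≤ M) → 1 ≤ k →
      (∫ θ in (0:ℝ)..(2 * Real.pi), Complex.exp (-((2 * k * θ : ℝ) * Complex.I)) *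
        (f (circleMap 0 1 θ) : ℂ)) ≠ 0 →
      (k = 1 ∨ ∃ c C : ℝ, 0 < c ∧ ∀ᶠ R in atTop, c * R ^ 2 ≤ N X.hol R ∧ N X.hol R ≤ C * R ^ 2) →
      Stable X f → ∀ A : SL(2, ℝ), Equi (X.push A).hol) ∧
    ((∃ c C : ℝ, 0 < c ∧ ∀ᶠ R in atTop, c * R ^ 2 ≤ N X.hol R ∧ N X.hol R ≤ C * R ^ 2) →
      ∀ f : ℂ → ℝ, Continuous f → (∃ u v : ℂ, ‖u‖ = 1 ∧ ‖v‖ = 1 ∧ f u + f (-u) ≠ f v + f (-v)) →
      ((∀ A : SL(2, ℝ), Equi (X.push A).hol) ↔ Stable X f)) :=
  ⟨fun _ _ hab hb => main_arc X hab hb,
    fun _ _ hfm hM hk hc hX hs => main_stable X hfm hM hk hc hX hs,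
    fun hX _ hf hne => main_cont X hX hf hne⟩

end Pool.Agent.Results.MP_d36302_an.OneFunction
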