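import Pool.Agent.Lib.SAD.Main

/-!
# MP_d36302_an : equidistribution of saddle connections along an `SL(2, ℝ)`-orbit

For every translation surface `X` (given by a triangulation), with `N(X, R)` the number of
oriented saddle connections of length at most `R`, seven properties are equivalent: the
holonomy angles of all surfaces `A X` equidistribute (so Q1 holds for all of them); they
equidistribute for `X` and one `A X`, `A` not orthogonal; they equidistribute for `X` and
`N(X, l R) / N(X, R) → l²`; `N(A X, R) / N(X, R) → 1` for all `A`; for all `A` close to the identity;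
the angles of `X` equidistribute and this limit holds for one `A` which is not orthogonal; the
rescaled counting measures of the holonomy vectors converge vaguely to `π⁻¹ ·` Lebesgue measure.
-/

open Filter Topology MeasureTheory Set SAD
open scoped MatrixGroups

namespace Pool.Agent.Results.MP_d36302_an.TeichmullerDisc

theorem result (X : SAD.TransSurf) :
    List.TFAE [
      ∀ A : SL(2, ℝ), Equi (X.push A).hol,
      Equi X.hol ∧ ∃ A : SL(2, ℝ), (∃ z, ‖act A z‖ ≠ ‖z‖) ∧ Equi (X.push A).hol,
      Equi X.hol ∧ ∀ l : ℝ, 0 < l →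
        Tendsto (fun R => N X.hol (l * R) / N X.hol R) atTop (𝓝 (l ^ 2)),
      ∀ A : SL(2, ℝ), Tendsto (fun R => N (X.push A).hol R / N X.hol R) atTop (𝓝 1),
      ∃ ε : ℝ, 0 < ε ∧ ∀ A : SL(2, ℝ),
        (∀ i j, |A i j - (1 : Matrix (Fin 2) (Fin 2) ℝ) i j| < ε) →
        Tendsto (fun R => N (X.push A).hol R / N X.hol R) atTop (𝓝 1),
      Equi X.hol ∧ ∃ A : SL(2, ℝ), (∃ z, ‖act A z‖ ≠ ‖z‖) ∧
        Tendsto (fun R => N (X.push A).hol R / N X.hol R) atTop (𝓝 1),
      LebLim X.hol] :=
  SAD.main X

end Pool.Agent.Results.MP_d36302_an.TeichmullerDisc
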